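import Pool.Agent.Y212.SG.Final

/-!
A dominant rational self-map of `ℙ³`, over any field of characteristic different from `2` and `3`,
of dynamical degree one, the degrees of whose iterates grow at least like `n ^ 4`.
-/

set_option autoImplicit false

open MvPolynomial Filter Topology

namespace Pool.Agent.Results.MP_55ef7c_ag.QuarticDegreeGrowth

universe u

variable {K : Type u} [Field K] {N : ℕ}

/-- `f = [f₀ : … : f_N]` is a rational map of `ℙ^N` of degree `d`: the `f_i` are forms of the common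
degree `d` without nonconstant common factor. -/
structure IsRationalMap (d : ℕ) (f : Fin (N + 1) → MvPolynomial (Fin (N + 1)) K) : Prop where
  homogeneous : ∀ i, (f i).IsHomogeneous d
  coprime : ∀ g : MvPolynomial (Fin (N + 1)) K, (∀ i, g ∣ f i) → IsUnit g

/-- `f` is dominant: its coordinates satisfy no nontrivial polynomial relation. -/
def IsDominant (f : Fin (N + 1) → MvPolynomial (Fin (N + 1)) K) : Prop :=
  AlgebraicIndependent K f

/-- The coordinates of the `n`-fold composition of `f`, before common factors are removed. -/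
noncomputable def composite (f : Fin (N + 1) → MvPolynomial (Fin (N + 1)) K) :
    ℕ → Fin (N + 1) → MvPolynomial (Fin (N + 1)) K
  | 0 => X
  | n + 1 => fun i => bind₁ f (composite f n i)

/-- `deg (f ^ n) = e`: removing the common factor of the coordinates of the `n`-fold composition of
`f` gives a rational map of degree `e`. -/
def IterateHasDegree (f : Fin (N + 1) → MvPolynomial (Fin (N + 1)) K) (n e : ℕ) : Prop :=
  ∃ (g : MvPolynomial (Fin (N + 1)) K) (F : Fin (N + 1) → MvPolynomial (Fin (N + 1)) K),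
    g ≠ 0 ∧ IsRationalMap e F ∧ ∀ i, composite f n i = g * F i

/-- `F ≍ G`. -/
def SameGrowth (F G : ℕ → ℝ) : Prop :=
  ∃ c₁ c₂ c₃ : ℝ, 0 < c₁ ∧ 0 < c₂ ∧ 0 < c₃ ∧ ∀ n : ℕ, c₃ ≤ n →
    c₁ * F n ≤ G n ∧ G n ≤ c₂ * F n

theorem isRationalMap_iff (d : ℕ) (f : Fin (N + 1) → MvPolynomial (Fin (N + 1)) K) :
    IsRationalMap d f ↔ Y212.SG.IsRat d f :=
  ⟨fun h => ⟨h.1, h.2⟩, fun h => ⟨h.1, h.2⟩⟩

theorem composite_eq (f : Fin (N + 1) → MvPolynomial (Fin (N + 1)) K) (n : ℕ) :
    composite f n = Y212.SG.itr f n := by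
  induction n with
  | zero => rfl
  | succ n ih =>
    funext i
    rw [composite, Y212.SG.itr, ih]

theorem iterateHasDegree_iff (f : Fin (N + 1) → MvPolynomial (Fin (N + 1)) K) (n e : ℕ) :
    IterateHasDegree f n e ↔ Y212.SG.HasDeg f n e := by
  simp only [IterateHasDegree, Y212.SG.HasDeg, composite_eq, isRationalMap_iff]

/-- Over every field of characteristic different from `2` and `3` there is a dominant rational map
`f : ℙ³ ⇢ ℙ³` with `deg (f ^ n) ≥ c n ^ 4` for some `c > 0` and all `n`, and with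
`deg (f ^ n) ^ (1 / n) → 1`. So `deg (f ^ n) ≍ n ^ ℓ δ_f ^ n` holds for no `ℓ ∈ {0, 1, 2, 3}`. -/
theorem result (K : Type u) [Field K] (h6 : (6 : K) ≠ 0) :
    ∃ (d : ℕ) (f : Fin (3 + 1) → MvPolynomial (Fin (3 + 1)) K),
      IsRationalMap d f ∧ IsDominant f ∧
      ∃ deg : ℕ → ℕ, (∀ n e, IterateHasDegree f n e ↔ e = deg n) ∧
        Tendsto (fun n : ℕ => (deg n : ℝ) ^ (1 / (n : ℝ))) atTop (𝓝 1) ∧
        (∃ c : ℝ, 0 < c ∧ ∀ n : ℕ, c * (n : ℝ) ^ 4 ≤ deg n) ∧
        ∀ ℓ : ℕ, ℓ ≤ 3 →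
          ¬ SameGrowth (fun n => (deg n : ℝ)) (fun n => (n : ℝ) ^ ℓ * (1 : ℝ) ^ n) := by
  obtain ⟨d, f, hf, hdom, deg, hdeg, hup, B, hlow⟩ := Y212.SG.main (K := K) h6
  obtain ⟨hB, h1, h4⟩ := Y212.SG.pos_of_low hlow
  have hB' : (0 : ℝ) < 1 / (4 * (B : ℝ)) := by
    have : (0 : ℝ) < B := by exact_mod_cast hB
    positivity
  refine ⟨d, f, (isRationalMap_iff d f).2 hf, hdom, deg, fun n e => ?_,
    Y212.SG.tendsto_root h1 hup, ⟨_, hB', h4⟩, fun ℓ hℓ => Y212.SG.not_comparable hB' h4 hℓ⟩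
  rw [iterateHasDegree_iff]
  exact hdeg n e

end Pool.Agent.Results.MP_55ef7c_ag.QuarticDegreeGrowth
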